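import Mathlib

/-!
# Isosceles-free sets in the grid: the Cauchy-Schwarz inequality
-/

namespace Pool.Agent.Lib.H40Iso

open Finset

/-- Complex multiplication on pairs of integers. -/
def cmul (z u : ℤ × ℤ) : ℤ × ℤ := (z.1 * u.1 - z.2 * u.2, z.1 * u.2 + z.2 * u.1)

/-- The norm `x ^ 2 + y ^ 2`. -/
def nrm (u : ℤ × ℤ) : ℤ := u.1 ^ 2 + u.2 ^ 2

theorem nrm_cmul (z u : ℤ × ℤ) : nrm (cmul z u) = nrm z * nrm u := by
  simp only [nrm, cmul]; ring

theorem nrm_nonneg (u : ℤ × ℤ) : 0 ≤ nrm u := by unfold nrm; positivity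

theorem cmul_sub_right (z u v : ℤ × ℤ) : cmul z (u - v) = cmul z u - cmul z v := by
  ext <;> simp only [cmul, Prod.fst_sub, Prod.snd_sub] <;> ring

theorem cmul_sub_left (z w u : ℤ × ℤ) : cmul (z - w) u = cmul z u - cmul w u := by
  ext <;> simp only [cmul, Prod.fst_sub, Prod.snd_sub] <;> ring

theorem nrm_eq_zero {u : ℤ × ℤ} (h : nrm u = 0) : u = 0 := by
  unfold nrm at h
  have h1 : u.1 = 0 := by nlinarith [sq_nonneg u.1, sq_nonneg u.2]
  have h2 : u.2 = 0 := by nlinarith [sq_nonneg u.1, sq_nonneg u.2]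
  ext <;> simp [h1, h2]

theorem cmul_left_inj {z u v : ℤ × ℤ} (hz : z ≠ 0) (h : cmul z u = cmul z v) : u = v := by
  have h1 : cmul z (u - v) = 0 := by rw [cmul_sub_right, h, sub_self]
  have h2 : nrm z * nrm (u - v) = 0 := by rw [← nrm_cmul, h1]; simp [nrm]
  rcases mul_eq_zero.mp h2 with h3 | h3
  · exact absurd (nrm_eq_zero h3) hz
  · exact sub_eq_zero.mp (nrm_eq_zero h3)

/-- No point of `A` has two different points of `A` at the same distance. -/
def Free (A : Finset (ℤ × ℤ)) : Prop :=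
  ∀ a ∈ A, ∀ b ∈ A, ∀ c ∈ A, a ≠ b → a ≠ c → b ≠ c → nrm (b - a) ≠ nrm (c - a)

/-- The main inequality. -/
theorem main_ineq {N M : ℕ} {r : ℤ} (hM : 1 ≤ M) {A U : Finset (ℤ × ℤ)}
    (hA : A ⊆ Finset.Icc 1 (N : ℤ) ×ˢ Finset.Icc 1 (N : ℤ)) (hfree : Free A)
    (hr : 0 < r) (hU : ∀ u ∈ U, nrm u = r) (hcard : U.card = M ^ 2)
    (hMr : 2 * (M : ℤ) ^ 2 * r ≤ (N : ℤ) ^ 2) :
    A.card * M ^ 2 ≤ 18 * N ^ 2 := by
  classical
  set B : Finset (ℤ × ℤ) := Finset.Ico 0 (M : ℤ) ×ˢ Finset.Ico 0 (M : ℤ) with hB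
  set C : Finset (ℤ × ℤ) := Finset.Icc (1 - (N : ℤ)) (2 * N) ×ˢ Finset.Icc (1 - (N : ℤ)) (2 * N)
    with hC
  have hBcard : B.card = M ^ 2 := by
    rw [hB, Finset.card_product, Int.card_Ico]; simp [sq]
  have hCcard : C.card = (3 * N) ^ 2 := by
    rw [hC, Finset.card_product, Int.card_Icc]
    have : (2 * (N : ℤ) + 1 - (1 - (N : ℤ))).toNat = 3 * N := by omega
    rw [this]; ring
  -- all the translates lie in `C`
  have hmem : ∀ u ∈ U, ∀ z ∈ B, ∀ a ∈ A, a - cmul z u ∈ C := by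
    intro u hu z hz a ha
    have ha' := hA ha
    simp only [Finset.mem_product, Finset.mem_Icc] at ha'
    simp only [hB, Finset.mem_product, Finset.mem_Ico] at hz
    have h1 : nrm (cmul z u) ≤ (N : ℤ) ^ 2 := by
      rw [nrm_cmul, hU u hu]
      have h2 : nrm z ≤ 2 * (M : ℤ) ^ 2 := by
        unfold nrm; nlinarith [hz.1.1, hz.1.2, hz.2.1, hz.2.2]
      exact (mul_le_mul_of_nonneg_right h2 hr.le).trans hMr
    have h3 : |(cmul z u).1| ≤ N := by
      apply abs_le_of_sq_le_sq _ (by positivity)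
      unfold nrm at h1; nlinarith [sq_nonneg (cmul z u).2]
    have h4 : |(cmul z u).2| ≤ N := by
      apply abs_le_of_sq_le_sq _ (by positivity)
      unfold nrm at h1; nlinarith [sq_nonneg (cmul z u).1]
    rw [abs_le] at h3 h4
    simp only [hC, Finset.mem_product, Finset.mem_Icc, Prod.fst_sub, Prod.snd_sub]
    refine ⟨⟨?_, ?_⟩, ⟨?_, ?_⟩⟩ <;> omega
  let n : ℤ × ℤ → ℤ × ℤ → ℕ := fun u c => (B.filter (fun z => c + cmul z u ∈ A)).card
  -- first moment
  have hfirst : ∀ u ∈ U, ∑ c ∈ C, n u c = B.card * A.card := by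
    intro u hu
    have h1 : ∑ c ∈ C, n u c = ∑ z ∈ B, (C.filter (fun c => c + cmul z u ∈ A)).card := by
      simp only [n, Finset.card_filter]
      rw [Finset.sum_comm]
    rw [h1]
    rw [Finset.sum_congr rfl (g := fun _ => A.card), Finset.sum_const, smul_eq_mul]
    intro z hz
    apply Finset.card_bij (fun c _ => c + cmul z u)
    · intro c hc; exact (Finset.mem_filter.mp hc).2
    · intro c _ c' _ h; exact add_right_cancel h
    · intro a ha
      exact ⟨a - cmul z u, Finset.mem_filter.mpr ⟨hmem u hu z hz a ha, by simpa using ha⟩, by simp⟩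
  -- second moment
  have hsecond : ∀ u ∈ U, ∑ c ∈ C, (n u c) ^ 2 ≤
      ∑ z ∈ B, ∑ w ∈ B, (A.filter (fun a => a + cmul (w - z) u ∈ A)).card := by
    intro u hu
    have h1 : ∑ c ∈ C, (n u c) ^ 2 =
        ∑ z ∈ B, ∑ w ∈ B, (C.filter (fun c => c + cmul z u ∈ A ∧ c + cmul w u ∈ A)).card := by
      have h2 : ∀ c, (n u c) ^ 2 = ∑ z ∈ B, ∑ w ∈ B,
          if (c + cmul z u ∈ A ∧ c + cmul w u ∈ A) then 1 else 0 := by
        intro c
        simp only [n, Finset.card_filter, sq, Finset.sum_mul_sum]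
        refine Finset.sum_congr rfl fun z _ => Finset.sum_congr rfl fun w _ => ?_
        split_ifs <;> simp_all
      simp only [h2]
      rw [Finset.sum_comm]
      refine Finset.sum_congr rfl fun z _ => ?_
      rw [Finset.sum_comm]
      refine Finset.sum_congr rfl fun w _ => ?_
      rw [Finset.card_filter]
    rw [h1]
    refine Finset.sum_le_sum fun z hz => Finset.sum_le_sum fun w hw => ?_
    apply Finset.card_le_card_of_injOn (fun c => c + cmul z u)
    · intro c hc
      have hc' := Finset.mem_filter.mp (Finset.mem_coe.mp hc)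
      refine Finset.mem_coe.mpr (Finset.mem_filter.mpr ⟨hc'.2.1, ?_⟩)
      rw [cmul_sub_left]
      have : c + cmul z u + (cmul w u - cmul z u) = c + cmul w u := by abel
      rw [this]; exact hc'.2.2
    · intro c _ c' _ h; exact add_right_cancel h
  -- at most one `u` for given `a` and `z ≠ w`
  have hone : ∀ z ∈ B, ∀ w ∈ B, z ≠ w → ∀ a ∈ A,
      (U.filter (fun u => a + cmul (w - z) u ∈ A)).card ≤ 1 := by
    intro z _ w _ hzw a ha
    rw [Finset.card_le_one]
    intro u hu v hv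
    rw [Finset.mem_filter] at hu hv
    by_contra huv
    have hne : w - z ≠ 0 := sub_ne_zero.mpr (Ne.symm hzw)
    have hd : nrm (w - z) ≠ 0 := fun h => hne (nrm_eq_zero h)
    have hnz : ∀ x ∈ U, a ≠ a + cmul (w - z) x := by
      intro x hx h
      have h1 : cmul (w - z) x = 0 := by
        have : a + cmul (w - z) x = a + 0 := by rw [add_zero]; exact h.symm
        exact add_left_cancel this
      have h2 : nrm (w - z) * nrm x = 0 := by rw [← nrm_cmul, h1]; simp [nrm]
      rw [hU x hx] at h2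
      rcases mul_eq_zero.mp h2 with h3 | h3
      · exact hd h3
      · exact hr.ne' h3
    refine hfree a ha _ hu.2 _ hv.2 (hnz u hu.1) (hnz v hv.1) ?_ ?_
    · intro h
      exact huv (cmul_left_inj hne (add_left_cancel h))
    · rw [add_sub_cancel_left, add_sub_cancel_left, nrm_cmul, nrm_cmul, hU u hu.1, hU v hv.1]
  have hpair : ∑ u ∈ U, ∑ z ∈ B, ∑ w ∈ B, (A.filter (fun a => a + cmul (w - z) u ∈ A)).card ≤
      A.card * B.card * (U.card + B.card) := by
    have h1 : ∑ u ∈ U, ∑ z ∈ B, ∑ w ∈ B, (A.filter (fun a => a + cmul (w - z) u ∈ A)).card =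
        ∑ z ∈ B, ∑ w ∈ B, ∑ a ∈ A, (U.filter (fun u => a + cmul (w - z) u ∈ A)).card := by
      rw [Finset.sum_comm]
      refine Finset.sum_congr rfl fun z _ => ?_
      rw [Finset.sum_comm]
      refine Finset.sum_congr rfl fun w _ => ?_
      simp only [Finset.card_filter]
      rw [Finset.sum_comm]
    rw [h1]
    have h2 : ∀ z ∈ B, ∑ w ∈ B, ∑ a ∈ A, (U.filter (fun u => a + cmul (w - z) u ∈ A)).card ≤
        A.card * (U.card + B.card) := by
      intro z hz
      rw [← Finset.add_sum_erase B _ hz, mul_add]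
      apply add_le_add
      · calc ∑ a ∈ A, (U.filter (fun u => a + cmul (z - z) u ∈ A)).card
            ≤ ∑ a ∈ A, U.card := Finset.sum_le_sum fun a _ => Finset.card_filter_le _ _
          _ = A.card * U.card := by rw [Finset.sum_const, smul_eq_mul]
      · calc ∑ w ∈ B.erase z, ∑ a ∈ A, (U.filter (fun u => a + cmul (w - z) u ∈ A)).card
            ≤ ∑ w ∈ B.erase z, ∑ a ∈ A, 1 := by
              refine Finset.sum_le_sum fun w hw => Finset.sum_le_sum fun a ha => ?_
              exact hone z hz w (Finset.mem_of_mem_erase hw) (Finset.ne_of_mem_erase hw).symm a ha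
          _ = (B.erase z).card * A.card := by simp
          _ ≤ B.card * A.card := Nat.mul_le_mul_right _ (Finset.card_erase_le)
          _ = A.card * B.card := Nat.mul_comm _ _
    calc ∑ z ∈ B, ∑ w ∈ B, ∑ a ∈ A, (U.filter (fun u => a + cmul (w - z) u ∈ A)).card
        ≤ ∑ z ∈ B, A.card * (U.card + B.card) := Finset.sum_le_sum h2
      _ = A.card * B.card * (U.card + B.card) := by
          rw [Finset.sum_const, smul_eq_mul]; ring
  have hCS : U.card * (B.card * A.card) ^ 2 ≤ C.card * (A.card * B.card * (U.card + B.card)) := by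
    calc U.card * (B.card * A.card) ^ 2 = ∑ u ∈ U, (∑ c ∈ C, n u c) ^ 2 := by
          rw [Finset.sum_congr rfl (g := fun _ => (B.card * A.card) ^ 2), Finset.sum_const,
            smul_eq_mul]
          intro u hu; rw [hfirst u hu]
      _ ≤ ∑ u ∈ U, C.card * ∑ c ∈ C, (n u c) ^ 2 :=
          Finset.sum_le_sum fun u _ => sq_sum_le_card_mul_sum_sq
      _ ≤ ∑ u ∈ U, C.card *
          ∑ z ∈ B, ∑ w ∈ B, (A.filter (fun a => a + cmul (w - z) u ∈ A)).card :=
          Finset.sum_le_sum fun u hu => Nat.mul_le_mul_left _ (hsecond u hu)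
      _ = C.card * ∑ u ∈ U, ∑ z ∈ B, ∑ w ∈ B,
          (A.filter (fun a => a + cmul (w - z) u ∈ A)).card := by rw [Finset.mul_sum]
      _ ≤ _ := Nat.mul_le_mul_left _ hpair
  rw [hcard, hBcard, hCcard] at hCS
  have hM2 : 0 < M ^ 2 := by positivity
  rcases Nat.eq_zero_or_pos A.card with h0 | h0
  · rw [h0]; simp
  have h5 : (A.card * M ^ 2) * (A.card * (M ^ 2) ^ 2) ≤ (18 * N ^ 2) * (A.card * (M ^ 2) ^ 2) := by
    calc (A.card * M ^ 2) * (A.card * (M ^ 2) ^ 2) = M ^ 2 * (M ^ 2 * A.card) ^ 2 := by ring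
      _ ≤ (3 * N) ^ 2 * (A.card * M ^ 2 * (M ^ 2 + M ^ 2)) := hCS
      _ = (18 * N ^ 2) * (A.card * (M ^ 2) ^ 2) := by ring
  exact Nat.le_of_mul_le_mul_right h5 (by positivity)

end Pool.Agent.Lib.H40Iso
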