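import Mathlib
import Pool.Agent.Lib.Sieve.PrimeSum

/-!
# Primes congruent to `1` modulo `4`: there are at least `v ^ 30` of them up to `v ^ 80 + 1`

We use Chebyshev's argument for the product of the numbers `m ^ 2 + 1`.
-/

namespace Pool.Agent.Lib.H40Iso

open Finset Pool.Agent.Lib.Sieve

/-- At most two roots of `x ^ 2 + 1` in a block of length `p ^ j`. -/
theorem count_le {p j : ℕ} (hp : p.Prime) (hp2 : p ≠ 2) (hj : 1 ≤ j) (M : ℕ) :
    ((Finset.Icc 1 M).filter (fun m => p ^ j ∣ m ^ 2 + 1)).card ≤ 2 * (M / p ^ j + 1) := by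
  classical
  set q := p ^ j with hq
  have hq0 : 0 < q := pow_pos hp.pos _
  set S := (Finset.Icc 1 M).filter (fun m => q ∣ m ^ 2 + 1) with hS
  have h1 : S.card ≤ 2 * (S.image (fun m => m / q)).card := by
    apply Finset.card_le_mul_card_image
    intro b _
    by_contra hcon
    push Not at hcon
    obtain ⟨x, hx, y, hy, z, hz, hxy, hxz, hyz⟩ := Finset.two_lt_card.mp hcon
    simp only [hS, Finset.mem_filter, Finset.mem_Icc] at hx hy hz
    -- key: two roots in the same block have sum divisible by `q`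
    have key : ∀ u w : ℕ, q ∣ u ^ 2 + 1 → q ∣ w ^ 2 + 1 → u / q = b → w / q = b → u ≠ w →
        (q : ℤ) ∣ (u : ℤ) + w := by
      intro u w hu hw hub hwb huw
      have hpZ : Prime (p : ℤ) := Nat.prime_iff_prime_int.mp hp
      have h1 : (q : ℤ) ∣ ((u : ℤ) - w) * (u + w) := by
        have hu' : (q : ℤ) ∣ (u : ℤ) ^ 2 + 1 := by exact_mod_cast hu
        have hw' : (q : ℤ) ∣ (w : ℤ) ^ 2 + 1 := by exact_mod_cast hw
        have := dvd_sub hu' hw'
        have e : ((u : ℤ) ^ 2 + 1) - ((w : ℤ) ^ 2 + 1) = ((u : ℤ) - w) * (u + w) := by ring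
        rwa [e] at this
      have hlt : |(u : ℤ) - w| < q := by
        have h2 := Nat.div_add_mod u q
        have h3 := Nat.div_add_mod w q
        have h4 := Nat.mod_lt u hq0
        have h5 := Nat.mod_lt w hq0
        rw [hub] at h2; rw [hwb] at h3
        have h6 : (u : ℤ) - w = (u % q : ℕ) - (w % q : ℕ) := by
          have h7 : (u : ℤ) = q * b + (u % q : ℕ) := by exact_mod_cast h2.symm
          have h8 : (w : ℤ) = q * b + (w % q : ℕ) := by exact_mod_cast h3.symm
          omega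
        rw [h6, abs_lt]
        constructor <;> omega
      have hnd : ¬ (q : ℤ) ∣ (u : ℤ) - w := by
        intro h
        have := Int.eq_zero_of_abs_lt_dvd h hlt
        omega
      -- `p` does not divide both factors
      have hpq : (p : ℤ) ∣ q := by
        rw [hq]; push_cast; exact dvd_pow_self _ (by omega)
      by_cases hpd : (p : ℤ) ∣ (u : ℤ) + w
      · by_cases hpd' : (p : ℤ) ∣ (u : ℤ) - w
        · exfalso
          have h2 : (p : ℤ) ∣ 2 * u := by
            have e : (2 : ℤ) * u = (u + w) + (u - w) := by ring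
            rw [e]; exact dvd_add hpd hpd'
          have h3 : (p : ℤ) ∣ u := by
            refine (hpZ.dvd_or_dvd h2).resolve_left ?_
            intro h
            have h4 : p ∣ 2 := by exact_mod_cast h
            exact hp2 ((Nat.prime_dvd_prime_iff_eq hp Nat.prime_two).mp h4)
          have h4 : (p : ℤ) ∣ (u : ℤ) ^ 2 + 1 := hpq.trans (by exact_mod_cast hu)
          have h5 : (p : ℤ) ∣ 1 := by
            have e : (1 : ℤ) = ((u : ℤ) ^ 2 + 1) - u * u := by ring
            rw [e]; exact dvd_sub h4 (h3.mul_left _)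
          exact hpZ.not_dvd_one h5
        · have hcop : IsCoprime (q : ℤ) ((u : ℤ) - w) := by
            rw [hq]; push_cast
            exact ((Prime.coprime_iff_not_dvd hpZ).mpr hpd').pow_left
          exact hcop.dvd_of_dvd_mul_left h1
      · exfalso
        have hcop : IsCoprime (q : ℤ) ((u : ℤ) + w) := by
          rw [hq]; push_cast
          exact ((Prime.coprime_iff_not_dvd hpZ).mpr hpd).pow_left
        exact hnd (hcop.dvd_of_dvd_mul_right h1)
    have hxy' := key x y hx.1.2 hy.1.2 hx.2 hy.2 hxy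
    have hxz' := key x z hx.1.2 hz.1.2 hx.2 hz.2 hxz
    have h2 : (q : ℤ) ∣ (y : ℤ) - z := by
      have e : (y : ℤ) - z = (x + y) - (x + z) := by ring
      rw [e]; exact dvd_sub hxy' hxz'
    have hlt : |(y : ℤ) - z| < q := by
      have h2 := Nat.div_add_mod y q
      have h3 := Nat.div_add_mod z q
      have h4 := Nat.mod_lt y hq0
      have h5 := Nat.mod_lt z hq0
      rw [hy.2] at h2; rw [hz.2] at h3
      have h6 : (y : ℤ) - z = (y % q : ℕ) - (z % q : ℕ) := by
        have h7 : (y : ℤ) = q * b + (y % q : ℕ) := by exact_mod_cast h2.symm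
        have h8 : (z : ℤ) = q * b + (z % q : ℕ) := by exact_mod_cast h3.symm
        omega
      rw [h6, abs_lt]
      constructor <;> omega
    have := Int.eq_zero_of_abs_lt_dvd h2 hlt
    omega
  have h2 : (S.image (fun m => m / q)).card ≤ M / q + 1 := by
    have h3 : S.image (fun m => m / q) ⊆ Finset.range (M / q + 1) := by
      intro b hb
      obtain ⟨m, hm, rfl⟩ := Finset.mem_image.mp hb
      simp only [hS, Finset.mem_filter, Finset.mem_Icc] at hm
      rw [Finset.mem_range]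
      have := Nat.div_le_div_right (c := q) hm.1.2
      omega
    simpa using Finset.card_le_card h3
  omega

/-- The primes `p ≤ y` with `p ≡ 1 mod 4`. -/
def Q (y : ℕ) : Finset ℕ := (primesUpTo y).filter (fun p => p % 4 = 1)

theorem mem_Q {y p : ℕ} : p ∈ Q y ↔ (p.Prime ∧ p ≤ y) ∧ p % 4 = 1 := by
  rw [Q, Finset.mem_filter, mem_primesUpTo]

/-- Contribution of one odd prime. -/
theorem sum_val_le {p : ℕ} (hp : p.Prime) (hp5 : 5 ≤ p) {M : ℕ} (hM : 1 ≤ M) :
    ∑ m ∈ Finset.Icc 1 M, ((m ^ 2 + 1).factorization p : ℝ) * Real.log p ≤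
      (5 / 2) * M * (Real.log p / p) + 2 * Real.log (M ^ 2 + 1) := by
  classical
  have hp0 : (0 : ℝ) < p := by exact_mod_cast hp.pos
  have hp5' : (5 : ℝ) ≤ p := by exact_mod_cast hp5
  have hlogp : 0 ≤ Real.log p := Real.log_nonneg (by linarith)
  set L := Nat.log p (M ^ 2 + 1) with hL
  have hval : ∀ m ∈ Finset.Icc 1 M, (m ^ 2 + 1).factorization p =
      ((Finset.Ico 1 (L + 1)).filter (fun i => p ^ i ∣ m ^ 2 + 1)).card := by
    intro m hm
    rw [Finset.mem_Icc] at hm
    apply Nat.factorization_eq_card_pow_dvd_of_lt hp (by positivity)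
    calc m ^ 2 + 1 ≤ M ^ 2 + 1 := by nlinarith [hm.2]
      _ < p ^ (L + 1) := Nat.lt_pow_succ_log_self hp.one_lt _
  have h1 : ∑ m ∈ Finset.Icc 1 M, (m ^ 2 + 1).factorization p ≤
      ∑ i ∈ Finset.Ico 1 (L + 1), 2 * (M / p ^ i + 1) := by
    calc ∑ m ∈ Finset.Icc 1 M, (m ^ 2 + 1).factorization p
        = ∑ m ∈ Finset.Icc 1 M, ((Finset.Ico 1 (L + 1)).filter (fun i => p ^ i ∣ m ^ 2 + 1)).card :=
          Finset.sum_congr rfl hval
      _ = ∑ i ∈ Finset.Ico 1 (L + 1), ((Finset.Icc 1 M).filter (fun m => p ^ i ∣ m ^ 2 + 1)).card := by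
          simp only [Finset.card_filter]; rw [Finset.sum_comm]
      _ ≤ _ := Finset.sum_le_sum fun i hi => count_le hp (by omega) (Finset.mem_Ico.mp hi).1 M
  have h2 : ∑ i ∈ Finset.Ico 1 (L + 1), ((2 * (M / p ^ i + 1) : ℕ) : ℝ) ≤
      (5 / 2) * M / p + 2 * L := by
    have h3 : ∀ i ∈ Finset.Ico 1 (L + 1), ((2 * (M / p ^ i + 1) : ℕ) : ℝ) ≤
        2 * M * (1 / p : ℝ) ^ i + 2 := by
      intro i _
      push_cast
      have h4 : ((M / p ^ i : ℕ) : ℝ) ≤ M / (p : ℝ) ^ i := by
        have := @Nat.cast_div_le ℝ _ _ _ M (p ^ i)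
        push_cast at this; exact this
      have h5 : (M : ℝ) / (p : ℝ) ^ i = M * (1 / p : ℝ) ^ i := by
        rw [one_div, inv_pow]; rfl
      rw [h5] at h4
      linarith
    refine (Finset.sum_le_sum h3).trans ?_
    rw [Finset.sum_add_distrib, ← Finset.mul_sum, Finset.sum_const, Nat.card_Ico]
    have h6 : ∑ i ∈ Finset.Ico 1 (L + 1), (1 / p : ℝ) ^ i ≤ (5 / 4) / p := by
      have h7 : ∀ n : ℕ, ∑ i ∈ Finset.Ico 1 (n + 1), (1 / p : ℝ) ^ i ≤
          (1 / (p - 1)) * (1 - (1 / p) ^ n) := by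
        intro n
        induction n with
        | zero => simp
        | succ n ih =>
          rw [Finset.sum_Ico_succ_top (by omega)]
          have h8 : (0 : ℝ) < p - 1 := by linarith
          have e : (1 / (p - 1) : ℝ) * (1 - (1 / p) ^ n) + (1 / p : ℝ) ^ (n + 1) =
              (1 / (p - 1)) * (1 - (1 / p) ^ (n + 1)) := by
            rw [pow_succ]; field_simp; ring
          linarith
      have h8 : (0 : ℝ) < p - 1 := by linarith
      have h9 : (0 : ℝ) ≤ (1 / p : ℝ) ^ L := by positivity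
      have h10 : (1 / (p - 1) : ℝ) ≤ (5 / 4) / p := by
        rw [div_le_div_iff₀ h8 hp0]; linarith
      calc ∑ i ∈ Finset.Ico 1 (L + 1), (1 / p : ℝ) ^ i ≤ (1 / (p - 1)) * (1 - (1 / p) ^ L) := h7 L
        _ ≤ (1 / (p - 1)) * 1 := by
            apply mul_le_mul_of_nonneg_left (by linarith) (by positivity)
        _ ≤ _ := by linarith
    have h7 : 2 * (M : ℝ) * ∑ i ∈ Finset.Ico 1 (L + 1), (1 / p : ℝ) ^ i ≤ 2 * M * ((5 / 4) / p) :=
      mul_le_mul_of_nonneg_left h6 (by positivity)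
    have h8 : 2 * (M : ℝ) * ((5 / 4) / p) = (5 / 2) * M / p := by ring
    simp only [Nat.add_sub_cancel, nsmul_eq_mul]
    linarith
  have h3 : (L : ℝ) * Real.log p ≤ Real.log (M ^ 2 + 1) := by
    rw [← Real.log_pow]
    apply Real.log_le_log (by positivity)
    have : p ^ L ≤ M ^ 2 + 1 := Nat.pow_log_le_self _ (by positivity)
    exact_mod_cast this
  have h4 : ∑ m ∈ Finset.Icc 1 M, ((m ^ 2 + 1).factorization p : ℝ) ≤ (5 / 2) * M / p + 2 * L := by
    refine le_trans ?_ h2
    exact_mod_cast h1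
  rw [← Finset.sum_mul]
  calc (∑ m ∈ Finset.Icc 1 M, ((m ^ 2 + 1).factorization p : ℝ)) * Real.log p
      ≤ ((5 / 2) * M / p + 2 * L) * Real.log p := mul_le_mul_of_nonneg_right h4 hlogp
    _ = (5 / 2) * M * (Real.log p / p) + 2 * (L * Real.log p) := by ring
    _ ≤ _ := by linarith

/-- Prime factors of `m ^ 2 + 1`. -/
theorem prime_factor {m p : ℕ} (hp : p.Prime) (h : p ∣ m ^ 2 + 1) : p = 2 ∨ p % 4 = 1 := by
  have : Fact p.Prime := ⟨hp⟩
  rcases hp.eq_two_or_odd with h2 | h2
  · exact Or.inl h2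
  · right
    have h3 : p % 4 ≠ 3 := by
      apply ZMod.mod_four_ne_three_of_sq_eq_neg_one (y := (m : ZMod p))
      have h4 : ((m ^ 2 + 1 : ℕ) : ZMod p) = 0 := (ZMod.natCast_eq_zero_iff _ _).mpr h
      push_cast at h4
      exact eq_neg_of_add_eq_zero_left h4
    omega

theorem val_two_le (m : ℕ) : (m ^ 2 + 1).factorization 2 ≤ 1 := by
  by_contra h
  push Not at h
  have h1 : 2 ^ 2 ∣ m ^ 2 + 1 :=
    (Nat.prime_two.pow_dvd_iff_le_factorization (by positivity)).mpr h
  have h2 : (m ^ 2 + 1) % 4 = 0 := Nat.mod_eq_zero_of_dvd h1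
  have h3 : m % 4 = 0 ∨ m % 4 = 1 ∨ m % 4 = 2 ∨ m % 4 = 3 := by omega
  rcases h3 with h | h | h | h <;> simp [Nat.add_mod, Nat.pow_mod, h] at h2

/-- Chebyshev's inequality for the polynomial `x ^ 2 + 1`. -/
theorem cheb {M : ℕ} (hM : 1 ≤ M) :
    2 * ((M : ℝ) * Real.log M - M) ≤ M * Real.log 2 +
      ∑ p ∈ Q (M ^ 2 + 1), ((5 / 2) * M * (Real.log p / p) + 2 * Real.log (M ^ 2 + 1)) := by
  classical
  have hM' : (1 : ℝ) ≤ M := by exact_mod_cast hM
  -- lower bound
  have h1 : 2 * ((M : ℝ) * Real.log M - M) ≤ ∑ m ∈ Finset.Icc 1 M, Real.log ((m ^ 2 + 1 : ℕ) : ℝ) := by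
    have h2 : (M : ℝ) * Real.log M - M ≤ Real.log (M.factorial) := by
      have h3 := Real.pow_div_factorial_le_exp (x := (M : ℝ)) (by positivity) M
      have hf : (0 : ℝ) < M.factorial := by exact_mod_cast Nat.factorial_pos M
      rw [div_le_iff₀ hf] at h3
      have h4 := Real.log_le_log (by positivity) h3
      rw [Real.log_pow, Real.log_mul (by positivity) hf.ne', Real.log_exp] at h4
      linarith
    have h3 : ∀ M : ℕ, Real.log (M.factorial) = ∑ m ∈ Finset.Icc 1 M, Real.log m := by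
      intro M
      induction M with
      | zero => simp
      | succ M ih =>
        rw [Finset.sum_Icc_succ_top (by omega), ← ih, Nat.factorial_succ]
        push_cast
        rw [Real.log_mul (by positivity) (by positivity)]
        ring
    have h4 : ∀ m ∈ Finset.Icc 1 M, 2 * Real.log m ≤ Real.log ((m ^ 2 + 1 : ℕ) : ℝ) := by
      intro m hm
      have hm1 : (1 : ℝ) ≤ m := by exact_mod_cast (Finset.mem_Icc.mp hm).1
      have : 2 * Real.log m = Real.log ((m : ℝ) ^ 2) := by rw [Real.log_pow]; push_cast; ring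
      rw [this]
      apply Real.log_le_log (by positivity)
      push_cast; linarith
    calc 2 * ((M : ℝ) * Real.log M - M) ≤ 2 * ∑ m ∈ Finset.Icc 1 M, Real.log m := by
          rw [← h3 M]; linarith
      _ = ∑ m ∈ Finset.Icc 1 M, 2 * Real.log m := by rw [Finset.mul_sum]
      _ ≤ _ := Finset.sum_le_sum h4
  refine h1.trans ?_
  -- factorization
  have h2 : ∀ m ∈ Finset.Icc 1 M, Real.log ((m ^ 2 + 1 : ℕ) : ℝ) ≤ Real.log 2 +
      ∑ p ∈ Q (M ^ 2 + 1), ((m ^ 2 + 1).factorization p : ℝ) * Real.log p := by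
    intro m hm
    rw [Finset.mem_Icc] at hm
    rw [Real.log_nat_eq_sum_factorization, Finsupp.sum, Nat.support_factorization]
    have hsub : (m ^ 2 + 1).primeFactors ⊆ insert 2 (Q (M ^ 2 + 1)) := by
      intro p hp
      have hpp := Nat.prime_of_mem_primeFactors hp
      have hpd := Nat.dvd_of_mem_primeFactors hp
      rw [Finset.mem_insert, mem_Q]
      rcases prime_factor hpp hpd with h | h
      · exact Or.inl h
      · refine Or.inr ⟨⟨hpp, ?_⟩, h⟩
        calc p ≤ m ^ 2 + 1 := Nat.le_of_dvd (by positivity) hpd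
          _ ≤ M ^ 2 + 1 := by nlinarith [hm.2]
    calc ∑ p ∈ (m ^ 2 + 1).primeFactors, ((m ^ 2 + 1).factorization p : ℝ) * Real.log (p : ℕ)
        ≤ ∑ p ∈ insert 2 (Q (M ^ 2 + 1)),
            ((m ^ 2 + 1).factorization p : ℝ) * Real.log (p : ℕ) := by
          apply Finset.sum_le_sum_of_subset_of_nonneg hsub
          intro p _ _
          exact mul_nonneg (by positivity) (Real.log_natCast_nonneg p)
      _ = ((m ^ 2 + 1).factorization 2 : ℝ) * Real.log ((2 : ℕ) : ℝ) +
          ∑ p ∈ Q (M ^ 2 + 1), ((m ^ 2 + 1).factorization p : ℝ) * Real.log (p : ℕ) := by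
          have h2Q : 2 ∉ Q (M ^ 2 + 1) := by rw [mem_Q]; omega
          rw [Finset.sum_insert h2Q]
      _ ≤ _ := by
          have h5 : ((m ^ 2 + 1).factorization 2 : ℝ) ≤ 1 := by exact_mod_cast val_two_le m
          have h6 : 0 ≤ Real.log ((2 : ℕ) : ℝ) := Real.log_natCast_nonneg 2
          have h7 := mul_le_mul_of_nonneg_right h5 h6
          rw [one_mul] at h7
          push_cast at h7 ⊢
          linarith
  refine (Finset.sum_le_sum h2).trans ?_
  rw [Finset.sum_add_distrib, Finset.sum_const, Nat.card_Icc, Finset.sum_comm]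
  simp only [Nat.add_sub_cancel, nsmul_eq_mul]
  gcongr with p hp
  have hp' := mem_Q.mp hp
  have hp5 : 5 ≤ p := by
    have := hp'.1.1.two_le
    by_contra h
    push Not at h
    interval_cases p <;> omega
  exact sum_val_le hp'.1.1 hp5 hM

/-- The sum of `log p / p` over a set of few primes. -/
theorem sum_log_div_le' {y x : ℕ} (hx : 3 ≤ x) :
    ∑ p ∈ Q y, Real.log p / p ≤ Real.log x + Real.log 4 + (Q y).card * (Real.log x / x) := by
  classical
  have hx' : (3 : ℝ) ≤ x := by exact_mod_cast hx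
  have he : Real.exp 1 ≤ 3 := by linarith [Real.exp_one_lt_d9]
  rw [← Finset.sum_filter_add_sum_filter_not (Q y) (fun p => p ≤ x)]
  apply add_le_add
  · refine le_trans ?_ (sum_log_div_le x (by omega))
    apply Finset.sum_le_sum_of_subset_of_nonneg
    · intro p hp
      rw [Finset.mem_filter, mem_Q] at hp
      exact mem_primesUpTo.mpr ⟨hp.1.1.1, hp.2⟩
    · intro p _ _
      exact div_nonneg (Real.log_natCast_nonneg p) (by positivity)
  · calc ∑ p ∈ (Q y).filter (fun p => ¬ p ≤ x), Real.log p / p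
        ≤ ∑ p ∈ (Q y).filter (fun p => ¬ p ≤ x), Real.log x / x := by
          apply Finset.sum_le_sum
          intro p hp
          rw [Finset.mem_filter] at hp
          have hxp : (x : ℝ) ≤ p := by
            have := hp.2; push Not at this; exact_mod_cast this.le
          exact Real.log_div_self_antitoneOn (Set.mem_Ici.mpr (he.trans hx'))
            (Set.mem_Ici.mpr (he.trans (hx'.trans hxp))) hxp
      _ = ((Q y).filter (fun p => ¬ p ≤ x)).card * (Real.log x / x) := by
          rw [Finset.sum_const, nsmul_eq_mul]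
      _ ≤ _ := by
          apply mul_le_mul_of_nonneg_right
          · exact_mod_cast Finset.card_filter_le _ _
          · exact div_nonneg (Real.log_natCast_nonneg x) (by positivity)

/-- There are at least `v ^ 30` primes `≡ 1 mod 4` up to `v ^ 80 + 1`, when `log v > 200`. -/
theorem card_Q_ge {v : ℕ} (hv : 200 < Real.log v) : v ^ 30 ≤ (Q (v ^ 80 + 1)).card := by
  by_contra hcon
  push Not at hcon
  have hv0 : 0 < v := by
    rcases Nat.eq_zero_or_pos v with h | h
    · rw [h] at hv; simp at hv; linarith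
    · exact h
  have hv1 : (1 : ℝ) ≤ v := by exact_mod_cast hv0
  have hvpos : (0 : ℝ) < v := by linarith
  have hlv : Real.log v ≤ v := by
    have := Real.log_le_sub_one_of_pos hvpos; linarith
  have hv200 : (200 : ℝ) < v := lt_of_lt_of_le hv hlv
  have hv200' : 200 < v := by exact_mod_cast hv200
  have h1 := cheb (M := v ^ 40) (Nat.one_le_pow _ _ hv0)
  have e80 : (v ^ 40) ^ 2 + 1 = v ^ 80 + 1 := by rw [← pow_mul]
  rw [e80] at h1
  rw [Finset.sum_add_distrib, ← Finset.mul_sum, Finset.sum_const, nsmul_eq_mul] at h1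
  have h2 := sum_log_div_le' (y := v ^ 80 + 1) (x := v ^ 31)
    (by calc 3 ≤ v := by omega
          _ ≤ v ^ 31 := Nat.le_self_pow (by norm_num) v)
  set c := ((Q (v ^ 80 + 1)).card : ℝ) with hc
  have hc1 : c ≤ (v : ℝ) ^ 30 := by
    rw [hc]; exact_mod_cast hcon.le
  have hc0 : 0 ≤ c := by positivity
  push_cast at h1 h2
  rw [Real.log_pow] at h1 h2
  set lam := Real.log v with hlam
  have hlog : Real.log (((v : ℝ) ^ 40) ^ 2 + 1) ≤ 80 * lam + 1 := by
    have h3 : ((v : ℝ) ^ 40) ^ 2 + 1 ≤ (v : ℝ) ^ 80 * 2 := by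
      have : (1 : ℝ) ≤ (v : ℝ) ^ 80 := one_le_pow₀ hv1
      have e : ((v : ℝ) ^ 40) ^ 2 = (v : ℝ) ^ 80 := by rw [← pow_mul]
      rw [e]; linarith
    calc Real.log (((v : ℝ) ^ 40) ^ 2 + 1) ≤ Real.log ((v : ℝ) ^ 80 * 2) :=
          Real.log_le_log (by positivity) h3
      _ = 80 * lam + Real.log 2 := by
          rw [Real.log_mul (by positivity) (by norm_num), Real.log_pow]; push_cast; ring
      _ ≤ _ := by linarith [Real.log_two_lt_d9]
  have hl4 : Real.log 4 ≤ 1.4 := by
    have : Real.log 4 = 2 * Real.log 2 := by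
      rw [show (4 : ℝ) = 2 ^ 2 by norm_num, Real.log_pow]; push_cast; ring
    rw [this]; linarith [Real.log_two_lt_d9]
  have hl2 : Real.log 2 ≤ 0.7 := by linarith [Real.log_two_lt_d9]
  have hlam0 : 0 < lam := by linarith
  -- first error term
  have h3 : c * (31 * lam / (v : ℝ) ^ 31) ≤ 31 := by
    calc c * (31 * lam / (v : ℝ) ^ 31) ≤ (v : ℝ) ^ 30 * (31 * lam / (v : ℝ) ^ 31) := by
          apply mul_le_mul_of_nonneg_right hc1; positivity
      _ = 31 * (lam / v) := by
          rw [pow_succ (v : ℝ) 30]; field_simp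
      _ ≤ 31 * 1 := by
          apply mul_le_mul_of_nonneg_left _ (by norm_num)
          rw [div_le_one hvpos]; exact hlv
      _ = 31 := by ring
  have h4 : c * (2 * Real.log (((v : ℝ) ^ 40) ^ 2 + 1)) ≤ 162 * (v : ℝ) ^ 40 := by
    calc c * (2 * Real.log (((v : ℝ) ^ 40) ^ 2 + 1)) ≤ (v : ℝ) ^ 30 * (2 * (80 * lam + 1)) := by
          apply mul_le_mul hc1 _ _ (by positivity)
          · linarith
          · apply mul_nonneg (by norm_num)
            apply Real.log_nonneg
            have : (0 : ℝ) ≤ ((v : ℝ) ^ 40) ^ 2 := by positivity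
            linarith
      _ ≤ (v : ℝ) ^ 30 * (162 * v) := by
          apply mul_le_mul_of_nonneg_left _ (by positivity)
          linarith
      _ ≤ (v : ℝ) ^ 30 * (162 * (v : ℝ) ^ 10) := by
          apply mul_le_mul_of_nonneg_left _ (by positivity)
          have : (v : ℝ) ≤ (v : ℝ) ^ 10 := by
            calc (v : ℝ) = (v : ℝ) ^ 1 := (pow_one _).symm
              _ ≤ (v : ℝ) ^ 10 := pow_le_pow_right₀ hv1 (by norm_num)
          linarith
      _ = 162 * (v : ℝ) ^ 40 := by ring
  have hM0 : (0 : ℝ) < (v : ℝ) ^ 40 := by positivity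
  have h5 : 2 * ((v : ℝ) ^ 40 * (40 * lam) - (v : ℝ) ^ 40) ≤ (v : ℝ) ^ 40 * 0.7 +
      (5 / 2 * (v : ℝ) ^ 40 * (31 * lam + 1.4 + 31) + 162 * (v : ℝ) ^ 40) := by
    have h6 : (5 / 2 : ℝ) * (v : ℝ) ^ 40 * ∑ p ∈ Q (v ^ 80 + 1), Real.log p / p ≤
        5 / 2 * (v : ℝ) ^ 40 * (31 * lam + 1.4 + 31) := by
      apply mul_le_mul_of_nonneg_left _ (by positivity)
      push_cast at h2
      linarith
    have h7 : (v : ℝ) ^ 40 * Real.log 2 ≤ (v : ℝ) ^ 40 * 0.7 :=
      mul_le_mul_of_nonneg_left hl2 hM0.le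
    push_cast at h1
    linarith
  have h8 : (v : ℝ) ^ 40 * (2 * (40 * lam - 1)) ≤
      (v : ℝ) ^ 40 * (0.7 + 5 / 2 * (31 * lam + 1.4 + 31) + 162) := by linarith
  have h9 := le_of_mul_le_mul_left h8 hM0
  linarith

end Pool.Agent.Lib.H40Iso
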