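import Mathlib
import Pool.Agent.Lib.H40Iso.Core

/-!
# Many representations as a sum of two squares
-/

namespace Pool.Agent.Lib.H40Iso

open Finset

/-- Conjugation. -/
def conj' (u : ℤ × ℤ) : ℤ × ℤ := (u.1, -u.2)

theorem nrm_conj' (u : ℤ × ℤ) : nrm (conj' u) = nrm u := by simp [nrm, conj']

theorem cmul_comm (z u : ℤ × ℤ) : cmul z u = cmul u z := by
  ext <;> simp only [cmul] <;> ring

theorem step_disjoint {p : ℕ} (hp : p.Prime) (hp4 : p % 4 = 1) {π : ℤ × ℤ} (hπ : nrm π = p)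
    {r : ℤ} (hr : ¬ (p : ℤ) ∣ r) {z w : ℤ × ℤ} (hz : nrm z = r)
    (h : cmul π z = cmul (conj' π) w) : False := by
  have hpZ : Prime (p : ℤ) := Nat.prime_iff_prime_int.mp hp
  -- multiply with `π` and `conj z`
  obtain ⟨a, b⟩ := π
  obtain ⟨x, y⟩ := z
  obtain ⟨s, t⟩ := w
  simp only [nrm, cmul, conj', Prod.mk.injEq] at *
  obtain ⟨h1, h2⟩ := h
  -- `(a + b i)^2 (x + y i) = p (s + t i)`
  have e1 : (a ^ 2 - b ^ 2) * x - 2 * a * b * y = p * s := by
    rw [← hπ]; linear_combination a * h1 - b * h2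
  have e2 : (a ^ 2 - b ^ 2) * y + 2 * a * b * x = p * t := by
    rw [← hπ]; linear_combination b * h1 + a * h2
  -- multiply with the conjugate of `z`
  have e3 : (a ^ 2 - b ^ 2) * r = p * (s * x + t * y) := by
    rw [← hz]; linear_combination x * e1 + y * e2
  have d1 : (p : ℤ) ∣ a ^ 2 - b ^ 2 := by
    have : (p : ℤ) ∣ (a ^ 2 - b ^ 2) * r := ⟨_, e3⟩
    exact (hpZ.dvd_or_dvd this).resolve_right hr
  have d2 : (p : ℤ) ∣ 2 * a ^ 2 := by
    have : 2 * a ^ 2 = (a ^ 2 - b ^ 2) + p := by rw [← hπ]; ring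
    rw [this]; exact dvd_add d1 dvd_rfl
  have d3 : (p : ℤ) ∣ a ^ 2 := by
    refine (hpZ.dvd_or_dvd d2).resolve_left ?_
    intro h2
    have h3 : p ∣ 2 := by exact_mod_cast h2
    have := (Nat.prime_dvd_prime_iff_eq hp Nat.prime_two).mp h3
    omega
  have d4 : (p : ℤ) ∣ a := hpZ.dvd_of_dvd_pow d3
  have d5 : (p : ℤ) ∣ b := by
    have : (p : ℤ) ∣ b ^ 2 := by
      have h3 : b ^ 2 = a ^ 2 - (a ^ 2 - b ^ 2) := by ring
      rw [h3]; exact dvd_sub d3 d1
    exact hpZ.dvd_of_dvd_pow this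
  obtain ⟨c, rfl⟩ := d4
  obtain ⟨d, rfl⟩ := d5
  have hp0 : (p : ℤ) ≠ 0 := hpZ.ne_zero
  have h6 : (p : ℤ) * (c ^ 2 + d ^ 2) = 1 := by
    have : (p : ℤ) * ((p : ℤ) * (c ^ 2 + d ^ 2)) = p * 1 := by
      rw [mul_one]; nlinarith [hπ]
    exact mul_left_cancel₀ hp0 this
  exact hpZ.not_dvd_one ⟨_, h6.symm⟩

/-- A product of `t` different primes `≡ 1 mod 4` has at least `2 ^ t` representations. -/
theorem exists_reps (P : Finset ℕ) (hP : ∀ p ∈ P, p.Prime ∧ p % 4 = 1) :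
    ∃ U : Finset (ℤ × ℤ), U.card = 2 ^ P.card ∧ ∀ u ∈ U, nrm u = ((∏ p ∈ P, p : ℕ) : ℤ) := by
  classical
  induction P using Finset.induction_on with
  | empty => exact ⟨{(1, 0)}, by simp, by simp [nrm]⟩
  | insert p P hpP ih =>
    obtain ⟨U, hUc, hU⟩ := ih (fun q hq => hP q (Finset.mem_insert_of_mem hq))
    obtain ⟨hp, hp4⟩ := hP p (Finset.mem_insert_self p P)
    have : Fact p.Prime := ⟨hp⟩
    obtain ⟨a, b, hab⟩ := Nat.Prime.sq_add_sq (p := p) (by omega)
    set π : ℤ × ℤ := ((a : ℤ), (b : ℤ)) with hπdef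
    have hπ : nrm π = p := by simp only [nrm, hπdef]; exact_mod_cast hab
    have hπ0 : π ≠ 0 := by
      intro h; rw [h] at hπ; simp [nrm] at hπ
      exact hp.ne_zero (by exact_mod_cast hπ.symm)
    have hπc0 : conj' π ≠ 0 := by
      intro h
      have h1 : nrm (conj' π) = p := by rw [nrm_conj', hπ]
      rw [h] at h1; simp [nrm] at h1
      exact hp.ne_zero (by exact_mod_cast h1.symm)
    have hndvd : ¬ (p : ℤ) ∣ ((∏ q ∈ P, q : ℕ) : ℤ) := by
      rw [Int.natCast_dvd_natCast, Prime.dvd_finset_prod_iff hp.prime]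
      rintro ⟨q, hq, hpq⟩
      have := (Nat.prime_dvd_prime_iff_eq hp (hP q (Finset.mem_insert_of_mem hq)).1).mp hpq
      exact hpP (this ▸ hq)
    refine ⟨U.image (cmul π) ∪ U.image (cmul (conj' π)), ?_, ?_⟩
    · rw [Finset.card_union_of_disjoint, Finset.card_image_of_injective,
        Finset.card_image_of_injective, hUc, Finset.card_insert_of_notMem hpP, pow_succ]
      · ring
      · intro u v h; exact cmul_left_inj hπc0 h
      · intro u v h; exact cmul_left_inj hπ0 h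
      · rw [Finset.disjoint_left]
        intro x hx hx'
        obtain ⟨z, hz, rfl⟩ := Finset.mem_image.mp hx
        obtain ⟨w, hw, hwz⟩ := Finset.mem_image.mp hx'
        exact step_disjoint hp hp4 hπ hndvd (hU z hz) hwz.symm
    · intro u hu
      rw [Finset.prod_insert hpP]
      push_cast
      rcases Finset.mem_union.mp hu with h | h
      · obtain ⟨z, hz, rfl⟩ := Finset.mem_image.mp h
        rw [nrm_cmul, hπ, hU z hz]; push_cast; ring
      · obtain ⟨z, hz, rfl⟩ := Finset.mem_image.mp h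
        rw [nrm_cmul, nrm_conj', hπ, hU z hz]; push_cast; ring

end Pool.Agent.Lib.H40Iso
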