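import Mathlib
import Pool.Agent.Lib.H40Iso.Core
import Pool.Agent.Lib.H40Iso.Reps
import Pool.Agent.Lib.H40Iso.Primes

/-!
# Isosceles-free subsets of the grid: `f(N) ≤ N ^ (2 - 1 / (2 log log N))`

Let `u_1, …, u_k` be different Gaussian integers of the same absolute value `√r` and let `B` be the
box of the Gaussian integers `x + i y` with `0 ≤ x, y < M`.  If `A` is an isosceles-free subset of
the grid and `n_j(c)` is the number of `z ∈ B` with `c + z u_j ∈ A`, then
`∑_c n_j(c) = |B| |A|`, and `∑_j ∑_c n_j(c)²` counts the pairs `(a, a + (w - z) u_j)` in `A`; for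
`z ≠ w` and given `a` at most one `j` is possible, since the points `a + (w - z) u_j` have the same
distance from `a`.  By Cauchy-Schwarz `|A| ≤ |C| (1 / |B| + 1 / k)`, where `C` is the set of
possible `c`.  We take `r` to be a product of primes `≡ 1 mod 4`.
-/

namespace Pool.Agent.Lib.H40Iso.UpperLogLog

open Finset Pool.Agent.Lib.H40Iso

/-- The grid `{1, …, N}²`. -/
noncomputable def grid (N : ℕ) : Finset (ℤ × ℤ) :=
  Finset.Icc 1 (N : ℤ) ×ˢ Finset.Icc 1 (N : ℤ)

/-- The Euclidean distance of two points with integer coordinates. -/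
noncomputable def eucl (a b : ℤ × ℤ) : ℝ :=
  Real.sqrt (((a.1 : ℝ) - b.1) ^ 2 + ((a.2 : ℝ) - b.2) ^ 2)

/-- `A` contains no isosceles triangle (degenerate ones included): there are no pairwise different
points `a`, `b`, `c` of `A` with `|a - b| = |a - c|`. -/
def IsoscelesFree (A : Finset (ℤ × ℤ)) : Prop :=
  ∀ a ∈ A, ∀ b ∈ A, ∀ c ∈ A, a ≠ b → a ≠ c → b ≠ c → eucl a b ≠ eucl a c

open Classical in
/-- The largest size of a subset of the grid which contains no isosceles triangle. -/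
noncomputable def f (N : ℕ) : ℕ :=
  ((grid N).powerset.filter (fun A => IsoscelesFree A)).sup Finset.card

/-! ## Proof -/

theorem free_of_isoscelesFree {A : Finset (ℤ × ℤ)} (h : IsoscelesFree A) : Free A := by
  intro a ha b hb c hc hab hac hbc heq
  apply h a ha b hb c hc hab hac hbc
  unfold eucl
  congr 1
  have h1 : ((b.1 - a.1) ^ 2 + (b.2 - a.2) ^ 2 : ℤ) = (c.1 - a.1) ^ 2 + (c.2 - a.2) ^ 2 := heq
  have h2 : ((b.1 : ℝ) - a.1) ^ 2 + ((b.2 : ℝ) - a.2) ^ 2 =
      ((c.1 : ℝ) - a.1) ^ 2 + ((c.2 : ℝ) - a.2) ^ 2 := by exact_mod_cast h1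
  linarith

/-- The bound for one set. -/
theorem card_le {N : ℕ} (hN : (10 ^ 4 : ℝ) ≤ Real.log (Real.log N)) {A : Finset (ℤ × ℤ)}
    (hA : A ⊆ grid N) (hfree : IsoscelesFree A) :
    (A.card : ℝ) ≤ (N : ℝ) ^ (2 - 1 / (2 * Real.log (Real.log N))) := by
  classical
  set L := Real.log N with hL
  set l := Real.log L with hl
  have hl0 : 0 < l := by linarith
  have hL1 : l + 1 ≤ L := by
    have h1 : L ≠ 0 := by
      intro h; rw [hl, h] at hN; simp at hN; linarith
    have hLnn : 0 ≤ L := Real.log_natCast_nonneg N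
    have hLpos : 0 < L := lt_of_le_of_ne hLnn (Ne.symm h1)
    have := Real.log_le_sub_one_of_pos hLpos
    linarith
  have hLpos : 0 < L := by linarith
  have hNpos : (0 : ℝ) < N := by
    rcases Nat.eq_zero_or_pos N with h | h
    · rw [hL, h] at hLpos; simp at hLpos
    · exact_mod_cast h
  have hNexp : Real.exp L = N := Real.exp_log hNpos
  have hLexp : Real.exp l = L := Real.exp_log hLpos
  -- `L / l` is large
  have hLl : 1000 * l ≤ L := by
    rw [← hLexp]
    have h1 := Real.quadratic_le_exp_of_nonneg hl0.le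
    nlinarith
  have hLl' : 1000 ≤ L / l := by rwa [le_div_iff₀ hl0]
  set s := ⌊0.37 * L / l⌋₊ with hs
  have hs1 : (s : ℝ) ≤ 0.37 * L / l := Nat.floor_le (by positivity)
  have hs2 : 0.37 * L / l < s + 1 := Nat.lt_floor_add_one _
  have hs1' : (s : ℝ) * l ≤ 0.37 * L := by rwa [le_div_iff₀ hl0] at hs1
  set v := ⌈L ^ ((1 : ℝ) / 30)⌉₊ with hv
  have hv1 : L ^ ((1 : ℝ) / 30) ≤ v := Nat.le_ceil _
  have hroot : 1 ≤ L ^ ((1 : ℝ) / 30) := Real.one_le_rpow (by linarith) (by norm_num)
  have hv2 : (v : ℝ) ≤ 2 * L ^ ((1 : ℝ) / 30) := by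
    have := (Nat.ceil_lt_add_one (by positivity : 0 ≤ L ^ ((1 : ℝ) / 30))).le
    linarith
  have hvpos : (0 : ℝ) < v := by linarith
  have hv1N : (1 : ℝ) ≤ v := by linarith
  have hlogroot : Real.log (L ^ ((1 : ℝ) / 30)) = l / 30 := by
    rw [Real.log_rpow hLpos, ← hl]; ring
  have hlogv1 : l / 30 ≤ Real.log v := by
    rw [← hlogroot]; exact Real.log_le_log (by positivity) hv1
  have hlogv2 : Real.log v ≤ l / 30 + 0.7 := by
    calc Real.log v ≤ Real.log (2 * L ^ ((1 : ℝ) / 30)) := Real.log_le_log hvpos hv2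
      _ = Real.log 2 + l / 30 := by
          rw [Real.log_mul (by norm_num) (by positivity), hlogroot]
      _ ≤ _ := by linarith [Real.log_two_lt_d9]
  have hQ := card_Q_ge (v := v) (by linarith)
  -- number of primes
  have hT : 2 * s ≤ v ^ 30 := by
    have h1 : L ≤ (v : ℝ) ^ 30 := by
      calc L = (L ^ ((1 : ℝ) / 30)) ^ 30 := by
            rw [← Real.rpow_natCast, ← Real.rpow_mul hLpos.le]; norm_num
        _ ≤ (v : ℝ) ^ 30 := pow_le_pow_left₀ (by positivity) hv1 30
    have h2 : (2 * s : ℝ) ≤ L := by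
      have : (s : ℝ) * 1 ≤ s * l := mul_le_mul_of_nonneg_left (by linarith) (by positivity)
      linarith
    exact_mod_cast h2.trans h1
  obtain ⟨P, hPsub, hPcard⟩ := Finset.exists_subset_card_eq (hT.trans hQ)
  have hPprime : ∀ p ∈ P, p.Prime ∧ p % 4 = 1 := fun p hp =>
    ⟨(mem_Q.mp (hPsub hp)).1.1, (mem_Q.mp (hPsub hp)).2⟩
  obtain ⟨U, hUcard, hU⟩ := exists_reps P hPprime
  set r := ∏ p ∈ P, p with hr
  have hr0 : 0 < r := Finset.prod_pos fun p hp => (hPprime p hp).1.pos
  have hlogr : Real.log r ≤ (2 * s) * (80 * Real.log v + 1) := by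
    have h1 : r ≤ (v ^ 80 + 1) ^ (2 * s) := by
      rw [hr, ← hPcard]
      exact Finset.prod_le_pow_card _ _ _ fun p hp => (mem_Q.mp (hPsub hp)).1.2
    have h2 : Real.log r ≤ Real.log (((v ^ 80 + 1) ^ (2 * s) : ℕ) : ℝ) :=
      Real.log_le_log (by exact_mod_cast hr0) (by exact_mod_cast h1)
    refine h2.trans ?_
    push_cast
    rw [Real.log_pow]
    push_cast
    apply mul_le_mul_of_nonneg_left _ (by positivity)
    have h3 : (v : ℝ) ^ 80 + 1 ≤ (v : ℝ) ^ 80 * 2 := by
      have : (1 : ℝ) ≤ (v : ℝ) ^ 80 := one_le_pow₀ hv1N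
      linarith
    calc Real.log ((v : ℝ) ^ 80 + 1) ≤ Real.log ((v : ℝ) ^ 80 * 2) :=
          Real.log_le_log (by positivity) h3
      _ = 80 * Real.log v + Real.log 2 := by
          rw [Real.log_mul (by positivity) (by norm_num), Real.log_pow]; push_cast; ring
      _ ≤ _ := by linarith [Real.log_two_lt_d9]
  -- the size condition
  have hcond : 2 * ((2 ^ s : ℕ) : ℤ) ^ 2 * (r : ℤ) ≤ (N : ℤ) ^ 2 := by
    have h1 : (2 : ℝ) * ((2 : ℝ) ^ s) ^ 2 * r ≤ (N : ℝ) ^ 2 := by
      have hr' : (0 : ℝ) < r := by exact_mod_cast hr0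
      rw [← Real.log_le_log_iff (by positivity) (by positivity),
        Real.log_mul (by positivity) (by positivity), Real.log_mul (by norm_num) (by positivity),
        Real.log_pow, Real.log_pow, Real.log_pow, ← hL]
      push_cast
      have h2 : (2 : ℝ) * s * (80 * Real.log v + 1) ≤ 2 * s * ((8 / 3) * l + 57) := by
        apply mul_le_mul_of_nonneg_left _ (by positivity)
        linarith
      have h3 : (s : ℝ) * 10 ^ 4 ≤ 0.37 * L := by
        refine le_trans ?_ hs1'
        exact mul_le_mul_of_nonneg_left hN (by positivity)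
      have h4 : (2 : ℝ) * (s * Real.log 2) ≤ 2 * (s * 1) := by
        have := Real.log_two_lt_d9
        have h5 : (s : ℝ) * Real.log 2 ≤ s * 1 :=
          mul_le_mul_of_nonneg_left (by linarith) (by positivity)
        linarith
      have h5 := Real.log_two_lt_d9
      nlinarith
    have h2 : 2 * (2 ^ s) ^ 2 * r ≤ N ^ 2 := by exact_mod_cast h1
    exact_mod_cast h2
  have hmain := main_ineq (N := N) (M := 2 ^ s) (r := (r : ℤ)) (Nat.one_le_two_pow) (A := A) (U := U)
    hA (free_of_isoscelesFree hfree) (by exact_mod_cast hr0) hU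
    (by rw [hUcard, hPcard, ← pow_mul, Nat.mul_comm]) hcond
  -- conclusion
  rcases Nat.eq_zero_or_pos A.card with h0 | h0
  · rw [h0]; simp; positivity
  have hA0 : (0 : ℝ) < A.card := by exact_mod_cast h0
  have h1 : (A.card : ℝ) * ((2 : ℝ) ^ s) ^ 2 ≤ 18 * (N : ℝ) ^ 2 := by exact_mod_cast hmain
  have h2 := Real.log_le_log (by positivity) h1
  rw [Real.log_mul (by positivity) (by positivity), Real.log_mul (by norm_num) (by positivity),
    Real.log_pow, Real.log_pow, Real.log_pow, ← hL] at h2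
  push_cast at h2
  have h18 : Real.log 18 ≤ 3.5 := by
    have h3 : Real.log 18 ≤ Real.log (2 ^ 5) := Real.log_le_log (by norm_num) (by norm_num)
    rw [Real.log_pow] at h3
    push_cast at h3
    linarith [Real.log_two_lt_d9]
  have h3 : Real.log A.card ≤ (2 - 1 / (2 * l)) * L := by
    have h4 : (2 - 1 / (2 * l)) * L = 2 * L - 0.5 * (L / l) := by field_simp; ring
    rw [h4]
    have h5 : (0.37 * (L / l) - 1) ≤ s := by
      have : 0.37 * L / l = 0.37 * (L / l) := by ring
      linarith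
    have h6 : (0.6931 : ℝ) ≤ Real.log 2 := by linarith [Real.log_two_gt_d9]
    have h7 : (0.37 * (L / l) - 1) * 0.6931 ≤ s * Real.log 2 := by
      apply mul_le_mul h5 h6 (by norm_num) (by positivity)
    nlinarith
  calc (A.card : ℝ) = Real.exp (Real.log A.card) := (Real.exp_log hA0).symm
    _ ≤ Real.exp ((2 - 1 / (2 * l)) * L) := Real.exp_le_exp.mpr h3
    _ = (N : ℝ) ^ (2 - 1 / (2 * l)) := by
        rw [Real.rpow_def_of_pos hNpos, ← hL, mul_comm]

/-- For all large `N`, a subset of `{1, …, N}²` without isosceles triangles has at most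
`N ^ (2 - 1 / (2 log log N))` points. -/
theorem result : ∃ N₀ : ℕ, ∀ N : ℕ, N₀ ≤ N →
    (f N : ℝ) ≤ (N : ℝ) ^ (2 - 1 / (2 * Real.log (Real.log N))) := by
  classical
  refine ⟨⌈Real.exp (Real.exp (10 ^ 4))⌉₊, fun N hN => ?_⟩
  have h1 : Real.exp (Real.exp (10 ^ 4)) ≤ N := (Nat.le_ceil _).trans (by exact_mod_cast hN)
  have h2 : Real.exp (10 ^ 4) ≤ Real.log N := by
    rw [← Real.log_exp (Real.exp (10 ^ 4))]
    exact Real.log_le_log (Real.exp_pos _) h1
  have h3 : (10 ^ 4 : ℝ) ≤ Real.log (Real.log N) := by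
    rw [← Real.log_exp (10 ^ 4)]
    exact Real.log_le_log (Real.exp_pos _) h2
  have hne : ((grid N).powerset.filter (fun A => IsoscelesFree A)).Nonempty := by
    refine ⟨∅, Finset.mem_filter.mpr ⟨Finset.empty_mem_powerset _, ?_⟩⟩
    intro a ha; simp at ha
  obtain ⟨A, hA, hAf⟩ := Finset.exists_mem_eq_sup _ hne Finset.card
  have hf : f N = A.card := by unfold f; exact hAf
  rw [hf]
  rw [Finset.mem_filter, Finset.mem_powerset] at hA
  exact card_le h3 hA.1 hA.2

end Pool.Agent.Lib.H40Iso.UpperLogLog
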